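import Pool.Agent.QMX.CFin

/-!
# MP_a12702_lc, partial answer to Q1 (complex exponentiation up to a small group)

Let `G` be a countable subgroup of `ℂ^*` which contains a divisible subgroup `D` that is not
contained in the unit circle. A set of complex numbers which is invariant under all field
automorphisms of `ℂ` that fix a countable set `A` pointwise and preserve the relation
`y ∈ exp x * G` is countable or has countable complement. This is Q1 with `exp` replaced by `exp`
up to the group `G`.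
-/

set_option autoImplicit false

namespace Pool.Agent.Results.MP_a12702_lc.BlurredInvariant

open Pool.Agent.EXL

theorem result (G D : Subgroup ℂˣ) (hG : (G : Set ℂˣ).Countable) (hDG : D ≤ G)
    (hD : ∀ n : ℕ, 0 < n → ∀ x ∈ D, ∃ y ∈ D, y ^ n = x) (hD1 : ∃ x ∈ D, ‖(x : ℂ)‖ ≠ 1)
    (A : Set ℂ) (hA : A.Countable) (S : Set ℂ)
    (hS : ∀ σ : ℂ ≃+* ℂ, (∀ a ∈ A, σ a = a) →
      (∀ a b : ℂ, (∃ g ∈ G, σ b = Complex.exp (σ a) * g) ↔ ∃ g ∈ G, b = Complex.exp a * g) →
      σ '' S = S) :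
    S.Countable ∨ Sᶜ.Countable := by
  obtain ⟨x, hx, hx1⟩ := hD1
  have key : ∀ a b : ℂ, Pool.Agent.EXL.ExpMod ((fun y : ℂˣ => (y : ℂ)) '' (G : Set ℂˣ)) a b ↔
      ∃ g ∈ G, b = Complex.exp a * g := by
    intro a b
    constructor
    · rintro ⟨_, ⟨g, hg, rfl⟩, h⟩
      exact ⟨g, hg, h⟩
    · rintro ⟨g, hg, h⟩
      exact ⟨_, ⟨g, hg, rfl⟩, h⟩
  refine Pool.Agent.QMX.quasiminimal_aut G D hG hDG hD x hx hx1 A hA S fun σ hσ h => ?_
  refine hS σ hσ fun a b => ?_
  rw [← key, ← key]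
  exact h a b

end Pool.Agent.Results.MP_a12702_lc.BlurredInvariant
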