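import Pool.Agent.EXT.FinF
import Pool.Agent.EXZ.Ov

/-!
# MP_a12702_lc, partial answer to Q1 (exact exponential-algebraic closedness in codimension one)

`V ⊆ ℂ^n × (ℂ^*)^n` irreducible of dimension `n`, the closure of its projection to `ℂ^n` is a
hypersurface `F = 0` with leading form `L`, not a hyperplane with integer coefficients. The fibre of `V`
over a general point of the hypersurface is a curve in `(ℂ^*)^n`; its points at infinity have order
vectors `v ∈ ℤ^n`. If ONE of them moves the leading form, `L(x + v) ≠ L(x)` for some `x`, the points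
`(z, exp z)` of `V` are Zariski dense in `V`.
-/

set_option autoImplicit false

namespace Pool.Agent.Results.MP_a12702_lc.CodimensionOneLeadingForm

open MvPolynomial

/-- `v` is the vector of the orders of `y_1, .., y_n` for some discrete valuation `w` of `ℂ[x, y] / P`
which is trivial on `ℂ[x] / (F)`. -/
def OrderVector {n : ℕ} (P : Ideal (MvPolynomial (Fin n ⊕ Fin n) ℂ)) (F : MvPolynomial (Fin n) ℂ)
    (v : Fin n → ℤ) : Prop :=
  ∃ w : Valuation (MvPolynomial (Fin n ⊕ Fin n) ℂ) (WithZero (Multiplicative ℤ)),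
    (∀ f, w f = 0 ↔ f ∈ P) ∧
    (∀ f : MvPolynomial (Fin n) ℂ, ¬ F ∣ f → w (rename Sum.inl f) = 1) ∧
    ∀ j, w (X (Sum.inr j)) = WithZero.exp (-(v j))

theorem result {n : ℕ} (P : Ideal (MvPolynomial (Fin n ⊕ Fin n) ℂ)) (hP : P.IsPrime)
    (hY : ∀ j : Fin n, (X (Sum.inr j) : MvPolynomial (Fin n ⊕ Fin n) ℂ) ∉ P)
    (hdim : Algebra.trdeg ℂ (MvPolynomial (Fin n ⊕ Fin n) ℂ ⧸ P) = n)
    (F : MvPolynomial (Fin n) ℂ) (hF0 : F ≠ 0)
    (hF : ∀ f : MvPolynomial (Fin n) ℂ, rename Sum.inl f ∈ P ↔ F ∣ f)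
    (hlin : ∀ (c κ : ℂ) (a : Fin n → ℤ),
      F ≠ C c * (∑ j, (a j : ℂ) • (X j : MvPolynomial (Fin n) ℂ) - C κ))
    (L : MvPolynomial (Fin n) ℂ) (hL : L = homogeneousComponent F.totalDegree F)
    (hv : (∃ v : Fin n → ℤ, OrderVector P F v ∧
        ∃ x : Fin n → ℂ, eval (fun j => x j + v j) L ≠ eval x L) ∨
      ∀ v : Fin n → ℤ, v ≠ 0 → ∃ x : Fin n → ℂ, eval (fun j => x j + v j) L ≠ eval x L)
    (h : MvPolynomial (Fin n ⊕ Fin n) ℂ) (hh : h ∉ P) :
    ∃ z : Fin n → ℂ, (∀ f ∈ P, eval (Sum.elim z fun j => Complex.exp (z j)) f = 0) ∧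
      eval (Sum.elim z fun j => Complex.exp (z j)) h ≠ 0 := by
  subst hL
  obtain ⟨v, ⟨w, hw, hwx, hwv⟩, hm⟩ : ∃ v : Fin n → ℤ, OrderVector P F v ∧
      ∃ x : Fin n → ℂ, eval (fun j => x j + v j) (homogeneousComponent F.totalDegree F) ≠
        eval x (homogeneousComponent F.totalDegree F) := by
    rcases hv with hv | hv
    · exact hv
    · obtain ⟨w, v, hv0, hw, hwx, hwv⟩ := Pool.Agent.EXZ.exists_ov P hP hY hdim F hF0 hF
      exact ⟨v, ⟨w, hw, hwx, hwv⟩, hv v hv0⟩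
  exact Pool.Agent.EXT.mainF P F w v ⟨hP, hY, hdim, hF0, hF, hw, hwx, hwv⟩ hm hlin h hh

end Pool.Agent.Results.MP_a12702_lc.CodimensionOneLeadingForm
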