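import Pool.Agent.EXJ.JFin

/-!
# MP_a12702_lc, partial answer to Q1 (exponential-algebraic closedness up to a cyclic group)

Let `g` be a nonzero complex number off the unit circle. Every irreducible rotund subvariety of
`ℂ^n × (ℂ^*)^n` contains a Zariski dense set of points `(z, w)` with `w_j ∈ exp(z_j) g^ℤ`.

Definition: `Rotund` (Pool/Agent/EXJ/JRot.lean).
-/

set_option autoImplicit false

namespace Pool.Agent.Results.MP_a12702_lc.CyclicClosedness

open Pool.Agent.EXJ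

theorem result (g : ℂ) (hg : g ≠ 0) (hg1 : ‖g‖ ≠ 1) {n : ℕ}
    (P : Ideal (MvPolynomial (Fin n ⊕ Fin n) ℂ)) (V : Set (Fin n ⊕ Fin n → ℂ)) (hP : P.IsPrime)
    (hV : V = {p | (∀ f ∈ P, MvPolynomial.eval p f = 0) ∧ ∀ j : Fin n, p (Sum.inr j) ≠ 0})
    (hrot : Rotund V) (h : MvPolynomial (Fin n ⊕ Fin n) ℂ) (hh : h ∉ P) :
    ∃ (z : Fin n → ℂ) (q : Fin n → ℤ),
      (∀ f ∈ P, MvPolynomial.eval (Sum.elim z fun j => Complex.exp (z j) * g ^ q j) f = 0) ∧
      MvPolynomial.eval (Sum.elim z fun j => Complex.exp (z j) * g ^ q j) h ≠ 0 :=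
  closed g hg hg1 P V hP hV hrot h hh

end Pool.Agent.Results.MP_a12702_lc.CyclicClosedness
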