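import Mathlib
import Pool.Agent.Helper23.GuardedDefs
import Pool.Agent.Helper23.QMm

/-!
# Quasiminimality for a controlled fragment with cardinality quantifiers

Every subset of `ℂ` obtained from zero sets of entire functions in any number of variables by
complements, countable unions, the quantifier `there are uncountably many y`, and cardinality
quantifiers (in particular existential quantifiers) controlled by zero sets of entire functions
of finite order in the quantified variable is countable or cocountable.  In particular this
covers unrestricted existential quantification of `y` over all countable Boolean combinations of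
equations which are of finite order in `y` with arbitrary sets of the family not involving `y`.
-/

set_option autoImplicit false

open Set Metric Filter Topology MeasureTheory

namespace Pool.Agent.Results.MP_a12702_lc.Guarded

open Pool.Agent.Helper23.Guarded Pool.Agent.Helper23.QM

/-- appending a coordinate -/
def consMap (n : ℕ) : (Fin n → ℂ) × ℂ → (Fin (n + 1) → ℂ) := fun p => Fin.cons p.2 p.1

lemma consMap_analytic (n : ℕ) : AnalyticOnNhd ℂ (consMap n) univ := by
  intro p _
  rw [analyticAt_pi_iff]
  intro i
  refine Fin.cases ?_ (fun j => ?_) i
  · simpa [consMap] using! (analyticAt_snd : AnalyticAt ℂ (Prod.snd : (Fin n → ℂ) × ℂ → ℂ) p)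
  · have h : AnalyticAt ℂ (fun p : (Fin n → ℂ) × ℂ => p.1 j) p :=
      ((ContinuousLinearMap.proj (R := ℂ) (φ := fun _ : Fin n => ℂ) j).analyticAt _).comp analyticAt_fst
    simpa [consMap] using! h

lemma consMap_measurable (n : ℕ) : Measurable (consMap n) := by
  have : Continuous (consMap n) := by
    rw [← continuousOn_univ]; exact (consMap_analytic n).continuousOn
  exact this.measurable

/-- Members of the family are Borel and satisfy the dichotomy along analytic discs. -/
lemma tame {n : ℕ} {S : Set (Fin n → ℂ)} (hS : Def n S) : MeasurableSet S ∧ DD S := by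
  induction hS with
  | zeroSet f hf =>
    refine ⟨?_, DD.zero hf⟩
    have : Continuous f := by rw [← continuousOn_univ]; exact hf.continuousOn
    exact (isClosed_singleton.preimage this).measurableSet
  | compl _ ih => exact ⟨ih.1.compl, ih.2.compl⟩
  | iUnion _ ih => exact ⟨MeasurableSet.iUnion fun i => (ih i).1, DD.iUnion fun i => (ih i).2⟩
  | @uncountablyMany n S _ ih =>
    have h1 : MeasurableSet (consMap n ⁻¹' S) := ih.1.preimage (consMap_measurable n)
    have h2 : DD (consMap n ⁻¹' S) := ih.2.comp (consMap_analytic n)
    exact ⟨unc_meas h1 h2, DD.unc h1 h2⟩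
  | @controlledCard n K F hF hG S _ hc ih =>
    have hF' : ∀ i, AnalyticOnNhd ℂ (fun p => F i (consMap n p)) univ := fun i p _ =>
      AnalyticAt.comp (g := F i) (hF i _ (mem_univ _)) (consMap_analytic n p (mem_univ _))
    have h1 : MeasurableSet (consMap n ⁻¹' S) := ih.1.preimage (consMap_measurable n)
    have h2 : DD (consMap n ⁻¹' S) := ih.2.comp (consMap_analytic n)
    exact card_tame (fun i p => F i (consMap n p)) hF' (fun i => hG i) h1 h2 hc K

theorem result {n : ℕ} {S : Set (Fin n → ℂ)} (hS : Def n S) (γ : ℂ → Fin n → ℂ)
    (hγ : AnalyticOnNhd ℂ γ univ) : {t | γ t ∈ S}.Countable ∨ {t | γ t ∉ S}.Countable :=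
  (tame hS).2.entire hγ

end Pool.Agent.Results.MP_a12702_lc.Guarded
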